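import Pool.Agent.V1164.BRW.Ray

open Pool.Agent.V1164.BRW

namespace Pool.Agent.Results.MP_2fa7ec_pr.CountablyManyExtinction

/-- **Negative answer to Q1**: an irreducible non-singular branching random walk with exactly
countably infinitely many extinction probability vectors. -/
theorem result : ∃ μ : ℕ × ℕ → PMF (ℕ × ℕ →₀ ℕ), Irreducible μ ∧ NonSingular μ ∧
    (EG μ).Countable ∧ (EG μ).Infinite :=
  ⟨Ray.mu, Ray.irr, Ray.nonsing, Ray.EG_countable, Ray.EG_infinite⟩

end Pool.Agent.Results.MP_2fa7ec_pr.CountablyManyExtinction
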