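import Pool.Agent.V1164.BRW.Dich

open Pool.Agent.V1164.BRW

namespace Pool.Agent.Results.MP_2fa7ec_pr.FixedPointDichotomy

/-- **Positive answer to Q2.** -/
theorem result (X : Type*) [Countable X] (μ : X → PMF (X →₀ ℕ)) (hirr : Irreducible μ)
    (hns : NonSingular μ) : (FG μ).Finite ∨ ¬ (FG μ).Countable :=
  finite_or_not_countable hirr hns

end Pool.Agent.Results.MP_2fa7ec_pr.FixedPointDichotomy
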